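import Pool.Agent.Lib.MP_418eb4_lc.Final

namespace Pool.Agent.Results.MP_418eb4_lc.IncomparableIso

open Pool.Agent.Lib.MP_418eb4_lc

/-- There are two classes `𝒱₁` and `𝒰₁` of one-generated c.e. algebras, given by decidable sets of
laws in finite signatures, whose isomorphism relations are incomparable under computable
reducibility. -/
theorem result : ∃ (σ τ : Signature) (V : Variety σ) (U : Variety τ),
    σ.symb.Finite ∧ τ.symb.Finite ∧
      ¬ Reducible (V.isoRel 1) (U.isoRel 1) ∧ ¬ Reducible (U.isoRel 1) (V.isoRel 1) :=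
  ⟨sig 2, sig 3, varA, varB, Set.finite_lt_nat 2, Set.finite_lt_nat 3, not_reducible_AB,
    not_reducible_BA⟩

end Pool.Agent.Results.MP_418eb4_lc.IncomparableIso
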